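import Pool.Agent.Helper77.PPO.HYPN
import Pool.Agent.Helper77.PPS.Asm
import Pool.Agent.Helper42.PB.Defs
import Pool.Agent.Helper42.PP1.LAB

/-!
# Project B (MP_fc6b1e_nt): the sieve hypotheses and the lower bound for the family, for the systems `sysB`
-/

set_option autoImplicit false

namespace Pool.Agent.Helper17.PB

open NumberField Polynomial Module IsDedekindDomain
open Pool.Agent.Helper51.RP Pool.Agent.Helper42.RD
open Pool.Agent.Helper77.PPS Pool.Agent.Helper77.PPO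
open Pool.Agent.Helper42.PP (Spl Base)
open Pool.Agent.Helper42.PP1 (SitW)
open Pool.Agent.Helper42.PB (TauF sysB)
open Pool.Agent.Helper17.PP (Sys)
open Pool.Agent.Helper60.PPS (vis_sub lab_psys lab_ms card_units)

section

variable (p : ℕ) [hp : Fact p.Prime] (K M K₁ M₁ M₂ : Type) [Field K]
    [NumberField K] [Field M] [NumberField M] [Field K₁] [NumberField K₁] [Field M₁]
    [NumberField M₁] [Field M₂] [NumberField M₂] [Algebra K M] [Algebra K K₁] [Algebra K M₁]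
    [Algebra M M₁] [Algebra K₁ M₁] [Algebra K M₂] [Algebra K₁ M₂]
    (ε : K₁) (δ : M ≃ₐ[K] M) (P : (ZMod p)[X]) [Fact (Irreducible P)]
    (B : Base p K M K₁ M₁ ε δ P) {n : ℕ} (E : TauF n B)

include hp in
/-- `N_LAB` for the primes split in `M₂`. -/
theorem lab2 [IsScalarTower K K₁ M₂] [IsGalois K K₁] [IsGalois K M₂] :
  ∃ C : ℝ, PSys (fun q : B.LP ↦ nv q.1.1) C ∧ ∀ x : ℝ, 2 ≤ x →
    |ms (fun q : B.LP ↦ nv q.1.1) (fun _ ↦ 1) x -
      ((p : ℝ) - 1) / finrank K K₁ * Real.log (Real.log x)| ≤ C ∧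
    |ms (fun q : B.LP ↦ nv q.1.1) ({q | q.1.1 ∈ Spl M₂ B.S}.indicator fun _ ↦ 1) x -
      ((p : ℝ) - 1) / finrank K M₂ * Real.log (Real.log x)| ≤ C := by
  obtain ⟨C0, hC0⟩ := n_chb K
  obtain ⟨C1, hC1⟩ := n_spl K K₁ B.S
  obtain ⟨C2, hC2⟩ := n_spl K M₂ B.S
  have hp0 : 0 ≤ (p : ℝ) - 1 := by
    rw [← card_units p]
    positivity
  have hC0' := hC0.nonneg
  have key : ∀ (n : ℕ) (a b D : ℝ), |a - 1 / (n : ℝ) * b| ≤ D →
      |((p : ℝ) - 1) * a - ((p : ℝ) - 1) / n * b| ≤ ((p : ℝ) - 1) * D := by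
    intro n a b D h
    have : ((p : ℝ) - 1) * a - ((p : ℝ) - 1) / n * b = ((p : ℝ) - 1) * (a - 1 / (n : ℝ) * b) := by
      ring
    rw [this, abs_mul, abs_of_nonneg hp0]
    exact mul_le_mul_of_nonneg_left h hp0
  have hm1 : ((p : ℝ) - 1) * C0 ≤ ((p : ℝ) - 1) * (C0 + |C1| + |C2|) :=
    mul_le_mul_of_nonneg_left (by linarith [abs_nonneg C1, abs_nonneg C2]) hp0
  have hm2 : ((p : ℝ) - 1) * C1 ≤ ((p : ℝ) - 1) * (C0 + |C1| + |C2|) :=
    mul_le_mul_of_nonneg_left (by linarith [le_abs_self C1, abs_nonneg C2]) hp0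
  have hm3 : ((p : ℝ) - 1) * C2 ≤ ((p : ℝ) - 1) * (C0 + |C1| + |C2|) :=
    mul_le_mul_of_nonneg_left (by linarith [le_abs_self C2, abs_nonneg C1]) hp0
  refine ⟨((p : ℝ) - 1) * (C0 + |C1| + |C2|),
    Pool.Agent.Helper60.PPS.PSys.mono (lab_psys p nv B.calP hC0) hm1, fun x hx => ⟨?_, ?_⟩⟩
  · have h3 := lab_ms p nv B.calP hC0 B.calP subset_rfl x
    have h4 : ({q : {q : HeightOneSpectrum (𝓞 K) × (ZMod p)ˣ // q.1 ∈ B.calP} |
        q.1.1 ∈ B.calP}.indicator fun _ => (1 : ℝ)) = fun _ => 1 := by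
      funext q
      exact Set.indicator_of_mem (s := {q : {q : HeightOneSpectrum (𝓞 K) × (ZMod p)ˣ //
        q.1 ∈ B.calP} | q.1.1 ∈ B.calP}) q.2 _
    rw [h4] at h3
    show |ms (fun q : {q : HeightOneSpectrum (𝓞 K) × (ZMod p)ˣ // q.1 ∈ B.calP} => nv q.1.1)
      (fun _ => 1) x - _| ≤ _
    rw [h3]
    exact (key _ _ _ _ (hC1 x hx)).trans hm2
  · have h3 := lab_ms p nv B.calP hC0 (Spl M₂ B.S) (vis_sub B.S) x
    show |ms (fun q : {q : HeightOneSpectrum (𝓞 K) × (ZMod p)ˣ // q.1 ∈ B.calP} => nv q.1.1)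
      ({q | q.1.1 ∈ Spl M₂ B.S}.indicator fun _ => 1) x - _| ≤ _
    rw [h3]
    exact (key _ _ _ _ (hC2 x hx)).trans hm3

include hp in
open Classical in
/-- The sieve hypotheses, without `mern`. -/
theorem sv0B [IsScalarTower K K₁ M₂] [IsGalois K K₁] [IsGalois K M₂]
    (hdv : finrank K K₁ ∣ p - 1) (s0 : HeightOneSpectrum (𝓞 K) → ZMod p) (aτ : K₁ˣ) (A : ℝ) :
    ∃ K₀ : ℕ, ∀ K' : ℕ, K₀ ≤ K' →
    SV0 (sysB B E (Spl M₂ B.S) s0 aτ) (gK (((p : ℝ) - 1) / finrank K K₁)) A K' := by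
  have hp1 : 1 < p := hp.out.one_lt
  have hd0 : 0 < finrank K K₁ := finrank_pos
  have hd2 : 0 < finrank K M₂ := finrank_pos
  set κ : ℝ := ((p : ℝ) - 1) / finrank K K₁ with hκ
  have hpr : (0 : ℝ) < (p : ℝ) - 1 := by
    have : (1 : ℝ) < p := by exact_mod_cast hp1
    linarith
  have hκ1 : 1 ≤ κ := by
    rw [hκ, le_div_iff₀ (by exact_mod_cast hd0), one_mul]
    have h : finrank K K₁ ≤ p - 1 := Nat.le_of_dvd (by omega) hdv
    have h' : ((finrank K K₁ : ℕ) : ℝ) ≤ ((p - 1 : ℕ) : ℝ) := by exact_mod_cast h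
    rwa [Nat.cast_sub hp1.le, Nat.cast_one] at h'
  set κs : ℝ := ((p : ℝ) - 1) / finrank K M₂ with hκs
  have hκs0 : 0 < κs := div_pos hpr (by exact_mod_cast hd2)
  obtain ⟨C, hC, hms⟩ := lab2 p K M K₁ M₁ M₂ ε δ P B
  obtain ⟨K1, hK1⟩ := h_che C
  obtain ⟨K2, hK2⟩ := h_ht C κ A hκ1
  obtain ⟨K3, hK3⟩ := h_mer C κs
  obtain ⟨g1, g2, g3, -⟩ := h_g κ hκ1
  have hN : PSys (sysB B E (Spl M₂ B.S) s0 aτ).N C := hC
  obtain ⟨K₀, hK₀⟩ := exists_nat_ge (max 1 (max (max K1 K2) (max K3 (max (2 ^ (κ - 1)) (1 / κs)))))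
  refine ⟨K₀, fun K' hK' ↦ ?_⟩
  have hr : max 1 (max (max K1 K2) (max K3 (max (2 ^ (κ - 1)) (1 / κs)))) ≤ (K' : ℝ) :=
    hK₀.trans (by exact_mod_cast hK')
  have r0 : (1 : ℝ) ≤ K' := (le_max_left _ _).trans hr
  have r' := (le_max_right _ _).trans hr
  have r1 : K1 ≤ K' := ((le_max_left _ _).trans (le_max_left _ _)).trans r'
  have r2 : K2 ≤ K' := ((le_max_right _ _).trans (le_max_left _ _)).trans r'
  have r'' := (le_max_right _ _).trans r'
  have r3 : K3 ≤ K' := (le_max_left _ _).trans r''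
  have r4 : (2 : ℝ) ^ (κ - 1) ≤ K' := ((le_max_left _ _).trans (le_max_right _ _)).trans r''
  have r5 : 1 / κs ≤ K' := ((le_max_right _ _).trans (le_max_right _ _)).trans r''
  have hK0' : (0 : ℝ) < K' := by linarith
  have hup : ∀ x : ℝ, 2 ≤ x → ms (sysB B E (Spl M₂ B.S) s0 aτ).N (fun _ ↦ 1) x ≤
      κ * Real.log (Real.log x) + C := by
    intro x hx
    have := (abs_le.1 (hms x hx).1).2
    have e : ms (sysB B E (Spl M₂ B.S) s0 aτ).N (fun _ ↦ 1) x =
      ms (fun q : B.LP ↦ nv q.1.1) (fun _ ↦ 1) x := rfl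
    rw [e]
    linarith
  exact
    { one_le := by exact_mod_cast r0
      che := fun j hj ↦ (hK1 p B.LP _ _ _ _ _ (sysB B E (Spl M₂ B.S) s0 aτ) hN j hj).trans
        (div_le_div_of_nonneg_right r1 (by positivity))
      g_one := g1
      g_mono := fun Y X h ↦ by
        have h5 := g2 Y X h
        have h6 := g1 X
        nlinarith
      g_dbl := fun Y ↦ (g3 Y).trans (mul_le_mul_of_nonneg_right r4 (by linarith [g1 Y]))
      ht := fun f hf Y hY Q ↦ by
        refine (hK2 p B.LP _ _ _ _ _ (sysB B E (Spl M₂ B.S) s0 aτ) hN hup f hf Y hY Q).trans ?_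
        have h6 : 0 ≤ Y * min 1 Y * gK κ Y := by
          have := g1 Y
          have : 0 ≤ min 1 Y := le_min zero_le_one hY.le
          positivity
        exact mul_le_mul_of_nonneg_right (mul_le_mul_of_nonneg_right r2 h6) (Real.exp_pos _).le
      mers := fun m' n' hm hmn ↦ by
        have h6 := hK3 p B.LP _ _ _ _ _ (sysB B E (Spl M₂ B.S) s0 aτ) {q | q.1.1 ∈ Spl M₂ B.S} hN
          (fun x hx ↦ (hms x hx).2) m' n' hm hmn
        have h7 : 0 ≤ Real.log ((n' : ℝ) / m') := by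
          apply Real.log_nonneg
          rw [le_div_iff₀ (by exact_mod_cast hm), one_mul]
          exact_mod_cast hmn
        have h8 : 1 / (K' : ℝ) ≤ κs := by
          rw [div_le_iff₀ hK0']
          rw [div_le_iff₀ hκs0] at r5
          linarith
        have h9 : (1 / K' : ℝ) * Real.log (n' / m') - K' ≤ κs * Real.log (n' / m') - K3 := by
          have := mul_le_mul_of_nonneg_right h8 h7
          linarith
        exact h9.trans h6 }

include hp in
open Classical in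
/-- The field `mern`. -/
theorem mernB [IsScalarTower K K₁ M₂] [IsGalois K K₁] [IsGalois K M₂] (hnt : 1 < finrank K₁ M₂)
    (s0 : HeightOneSpectrum (𝓞 K) → ZMod p) (aτ : K₁ˣ) :
    ∃ K₀ : ℕ, ∀ K' : ℕ, K₀ ≤ K' → ∀ m n : ℕ, 1 ≤ m → m ≤ n →
      (1 / K' : ℝ) * Real.log (n / m) - K' ≤
      ∑ q ∈ (sysB B E (Spl M₂ B.S) s0 aτ).below n with
        ¬ (sysB B E (Spl M₂ B.S) s0 aτ).spl q ∧ m ≤ (sysB B E (Spl M₂ B.S) s0 aτ).bl q,
        (1 : ℝ) / (sysB B E (Spl M₂ B.S) s0 aτ).N q := by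
  have hp1 : 1 < p := hp.out.one_lt
  have hpr : (0 : ℝ) < (p : ℝ) - 1 := by
    have : (1 : ℝ) < p := by exact_mod_cast hp1
    linarith
  have hd0 : 0 < finrank K K₁ := finrank_pos
  have hd0' : (0 : ℝ) < finrank K K₁ := by exact_mod_cast hd0
  set κ : ℝ := ((p : ℝ) - 1) / finrank K K₁ with hκ
  have hmul : finrank K K₁ * finrank K₁ M₂ = finrank K M₂ := finrank_mul_finrank K K₁ M₂
  have hlt : finrank K K₁ < finrank K M₂ := by
    rw [← hmul]
    exact lt_mul_of_one_lt_right hd0 hnt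
  have hM0' : (0 : ℝ) < finrank K M₂ := by exact_mod_cast hd0.trans hlt
  set κs : ℝ := ((p : ℝ) - 1) / finrank K M₂ with hκs
  have hs0 : 0 < κs := div_pos hpr hM0'
  have hsκ : κs < κ := by
    rw [hκ, hκs]
    exact div_lt_div_of_pos_left hpr hd0' (by exact_mod_cast hlt)
  obtain ⟨C, hC, hms⟩ := lab2 p K M K₁ M₁ M₂ ε δ P B
  have hC0 : 0 ≤ C := hC.nonneg
  have hC' : PSys (sysB B E (Spl M₂ B.S) s0 aτ).N C := hC
  have hC2 : PSys (sysB B E (Spl M₂ B.S) s0 aτ).N (2 * C) :=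
    Pool.Agent.Helper4.PPS.psys_mono hC' (by linarith)
  obtain ⟨Kn, hKn⟩ := h_mer (2 * C) (κ - κs)
  have hmern := hKn p _ _ _ _ _ _ (sysB B E (Spl M₂ B.S) s0 aτ)
    {q : B.LP | q.1.1 ∉ Spl M₂ B.S} hC2 (fun x hx ↦ by
    have h := (abs_le.1 (hms x hx).1)
    have h' := (abs_le.1 (hms x hx).2)
    have hsum : ms (sysB B E (Spl M₂ B.S) s0 aτ).N
        ({q : B.LP | q.1.1 ∉ Spl M₂ B.S}.indicator fun _ ↦ 1) x =
        ms (fun q : B.LP ↦ nv q.1.1) (fun _ ↦ 1) x -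
          ms (fun q : B.LP ↦ nv q.1.1) ({q : B.LP | q.1.1 ∈ Spl M₂ B.S}.indicator fun _ ↦ 1) x := by
      show ms (fun q : B.LP ↦ nv q.1.1) ({q : B.LP | q.1.1 ∉ Spl M₂ B.S}.indicator fun _ ↦ 1) x = _
      unfold ms
      rw [← Finset.sum_sub_distrib]
      refine Finset.sum_congr rfl fun q _ ↦ ?_
      by_cases hq : q.1.1 ∈ Spl M₂ B.S
      · rw [Set.indicator_of_notMem (by simpa using hq), Set.indicator_of_mem (by simpa using hq)]
        ring
      · rw [Set.indicator_of_mem (by simpa using hq), Set.indicator_of_notMem (by simpa using hq)]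
        ring
    rw [hsum, abs_le]
    have e : (κ - κs) * Real.log (Real.log x) =
      κ * Real.log (Real.log x) - κs * Real.log (Real.log x) := by ring
    rw [e]
    constructor <;> linarith [h.1, h.2, h'.1, h'.2])
  set M0 : ℝ := max Kn (max (1 / (κ - κs)) 1) with hM0
  refine ⟨⌈M0⌉₊, fun K' hK' ↦ ?_⟩
  have hMK : M0 ≤ K' := (Nat.le_ceil M0).trans (by exact_mod_cast hK')
  have b4 : Kn ≤ K' := (le_max_left _ _).trans hMK
  have b6 : 1 / (κ - κs) ≤ K' := le_trans ((le_max_left _ _).trans (le_max_right _ _)) hMK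
  have b7 : (1 : ℝ) ≤ K' := le_trans ((le_max_right _ _).trans (le_max_right _ _)) hMK
  have hK0 : (0 : ℝ) < K' := by linarith
  have hinv : ∀ a : ℝ, 0 < a → 1 / a ≤ K' → 1 / (K' : ℝ) ≤ a := by
    intro a ha hle
    rw [div_le_iff₀ ha] at hle
    rw [div_le_iff₀ hK0]
    linarith
  intro m n hm hmn
  have h := hmern m n hm hmn
  have hl : 0 ≤ Real.log ((n : ℝ) / m) := by
    refine Real.log_nonneg ?_
    have hm' : (0 : ℝ) < m := by exact_mod_cast hm
    rw [le_div_iff₀ hm', one_mul]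
    exact_mod_cast hmn
  have h1' : (1 / K' : ℝ) * Real.log (n / m) ≤ (κ - κs) * Real.log (n / m) :=
    mul_le_mul_of_nonneg_right (hinv (κ - κs) (by linarith) b6) hl
  have h2' : (1 / K' : ℝ) * Real.log (n / m) - K' ≤ (κ - κs) * Real.log (n / m) - Kn := by
    linarith
  refine h2'.trans (h.trans (le_of_eq ?_))
  refine Finset.sum_congr ?_ fun q _ ↦ rfl
  ext q
  simp only [Finset.mem_filter]
  rfl

include hp in
open Classical in
/-- The family is large (`K₁` totally complex). -/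
theorem lowB [IsGalois K K₁] [IsTotallyComplex K₁] (V : Set (HeightOneSpectrum (𝓞 K)))
    (s0 : HeightOneSpectrum (𝓞 K) → ZMod p) (aτ : K₁ˣ)
    (hfam : ∃ b, (sysB B E V s0 aτ).Fam b) :
    ∃ c X₀ : ℝ, 0 < c ∧ ∀ X : ℝ, X₀ ≤ X → ∃ P' : Finset B.LP,
    c * (X * gK (((p : ℝ) - 1) / finrank K K₁) X) ≤
      ∑ b ∈ P'.powerset with (sysB B E V s0 aτ).Fam b, Real.exp (-((sysB B E V s0 aτ).nm b / X)) := by
  classical
  obtain ⟨C, hC⟩ := n_chb K
  have hp1 : (0 : ℝ) < (p : ℝ) - 1 := by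
    have : (2 : ℝ) ≤ p := by exact_mod_cast hp.out.two_le
    linarith
  have hCh := n_chs K K₁ B.S ((p : ℝ) - 1) hp1
  -- the classes
  set c : HeightOneSpectrum (𝓞 K) → (Fin B.t → ZMod p) := fun v j ↦ B.cl j v with hc
  set τ : Fin B.t → ZMod p := fun j ↦ B.ch j aτ with hτ
  have hspan : τ ∈ Submodule.span (ZMod p) (c '' B.calP) := by
    obtain ⟨b, -, hb⟩ := hfam
    have hb' : τ = ∑ q ∈ b, ((q.1.2 : (ZMod p)ˣ) : ZMod p) • c q.1.1 := by
      rw [show τ = (sysB B E V s0 aτ).cl₀ from rfl, ← hb]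
      rfl
    rw [hb']
    exact Submodule.sum_mem _ fun q _ ↦ Submodule.smul_mem _ _
      (Submodule.subset_span ⟨q.1.1, q.2, rfl⟩)
  obtain ⟨c₁, c₂, X₀, hc₁, -, hlab⟩ := Pool.Agent.Helper77.PPS.p_lab p (HeightOneSpectrum (𝓞 K)) nv C hC B.calP hCh
    (Fin B.t → ZMod p) c τ hspan
  obtain ⟨C', hC'⟩ := n_spl K K₁ B.S
  set κ : ℝ := ((p : ℝ) - 1) / finrank K K₁ with hκ
  refine ⟨Real.exp (-1) * (c₁ * Real.exp (-(((p : ℝ) - 1) * C'))), max X₀ 3, by positivity, ?_⟩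
  intro X hX
  have hX0 : X₀ ≤ X := (le_max_left _ _).trans hX
  have hX3 : 3 ≤ X := (le_max_right _ _).trans hX
  have hXpos : 0 < X := by linarith
  obtain ⟨hfin, hlow, -⟩ := hlab X hX0
  -- the analytic lower bound
  have hlog1 : 1 ≤ Real.log X := by
    rw [Real.le_log_iff_exp_le hXpos]
    exact (Real.exp_one_lt_d9.le.trans (by norm_num)).trans hX3
  have hlog0 : 0 < Real.log X := by linarith
  have hms : ms nv (B.calP.indicator fun _ ↦ ((p : ℝ) - 1)) X =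
      ((p : ℝ) - 1) * ms nv (B.calP.indicator fun _ ↦ (1 : ℝ)) X := by
    unfold ms
    rw [Finset.mul_sum]
    refine Finset.sum_congr rfl fun q _ ↦ ?_
    by_cases hq : q ∈ B.calP
    · rw [Set.indicator_of_mem hq, Set.indicator_of_mem hq]; ring
    · rw [Set.indicator_of_notMem hq, Set.indicator_of_notMem hq]; ring
  have hms2 : κ * Real.log (Real.log X) - ((p : ℝ) - 1) * C' ≤
      ms nv (B.calP.indicator fun _ ↦ ((p : ℝ) - 1)) X := by
    rw [hms]
    have h5 := (abs_le.1 (hC' X (by linarith))).1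
    have h6 : 1 / (finrank K K₁ : ℝ) * Real.log (Real.log X) - C' ≤
        ms nv (B.calP.indicator fun _ ↦ (1 : ℝ)) X := by
      have : ms nv ((Spl K₁ B.S).indicator fun _ ↦ (1 : ℝ)) X =
        ms nv (B.calP.indicator fun _ ↦ (1 : ℝ)) X := rfl
      linarith
    have h7 := mul_le_mul_of_nonneg_left h6 hp1.le
    calc κ * Real.log (Real.log X) - ((p : ℝ) - 1) * C'
        = ((p : ℝ) - 1) * (1 / (finrank K K₁ : ℝ) * Real.log (Real.log X) - C') := by
          rw [hκ]; ring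
      _ ≤ _ := h7
  have hgK : gK κ X = Real.log X ^ (κ - 1) := by
    unfold gK
    rw [max_eq_right (by linarith : (1 : ℝ) ≤ X), max_eq_right hlog1]
  have hmag : Real.exp (-(((p : ℝ) - 1) * C')) * (X * gK κ X) ≤
      mag nv (B.calP.indicator fun _ ↦ ((p : ℝ) - 1)) X := by
    unfold mag
    have h5 : Real.exp (κ * Real.log (Real.log X) - ((p : ℝ) - 1) * C') =
        Real.exp (-(((p : ℝ) - 1) * C')) * Real.log X ^ κ := by
      rw [sub_eq_add_neg, Real.exp_add, Real.rpow_def_of_pos hlog0]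
      ring_nf
    have h6 : Real.log X ^ κ = Real.log X ^ (κ - 1) * Real.log X := by
      rw [Real.rpow_sub_one hlog0.ne']
      field_simp
    calc Real.exp (-(((p : ℝ) - 1) * C')) * (X * gK κ X)
        = X / Real.log X * Real.exp (κ * Real.log (Real.log X) - ((p : ℝ) - 1) * C') := by
          rw [h5, h6, hgK]; field_simp
      _ ≤ X / Real.log X * Real.exp (ms nv (B.calP.indicator fun _ ↦ ((p : ℝ) - 1)) X) := by
          refine mul_le_mul_of_nonneg_left (Real.exp_le_exp.2 hms2) (by positivity)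
  -- the injection
  set P' : Finset B.LP := (sysB B E V s0 aτ).upto X with hP'
  refine ⟨P', ?_⟩
  have hmemP : ∀ q : B.LP, q ∈ P' ↔ (nv q.1.1 : ℝ) ≤ X := by
    intro q
    rw [hP', Sys.upto, Set.Finite.mem_toFinset, Set.mem_ofPred_eq,
      show (sysB B E V s0 aτ).N q = nv q.1.1 from rfl, Nat.le_floor_iff hXpos.le]
  let Φ : (HeightOneSpectrum (𝓞 K) →₀ ZMod p) → Finset B.LP := fun e ↦
    P'.filter fun q ↦ ((q.1.2 : (ZMod p)ˣ) : ZMod p) = e q.1.1
  have hone : ∀ (s : Finset (HeightOneSpectrum (𝓞 K))) (v : HeightOneSpectrum (𝓞 K)), v ∈ s →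
      nv v ≤ nb nv s := by
    intro s v hv
    unfold nb
    refine Finset.single_le_prod' (f := nv) (fun w _ ↦ ?_) hv
    have := hC.two w
    omega
  have hunit : ∀ e ∈ labs p nv B.calP c τ X, ∀ v ∈ e.support, ∃ q ∈ Φ e, q.1.1 = v := by
    intro e he v hv
    have h0 : e v ≠ 0 := Finsupp.mem_support_iff.1 hv
    refine ⟨⟨(v, Units.mk0 (e v) h0), he.1 v hv⟩, ?_, rfl⟩
    refine Finset.mem_filter.2 ⟨(hmemP _).2 ?_, rfl⟩
    refine le_trans ?_ he.2.1
    exact_mod_cast hone e.support v hv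
  have hsupp : ∀ e, ∀ q ∈ Φ e, q.1.1 ∈ e.support := by
    intro e q hq
    rw [Finsupp.mem_support_iff, ← (Finset.mem_filter.1 hq).2]
    exact q.1.2.ne_zero
  have hinjb : ∀ e, ∀ q ∈ Φ e, ∀ q' ∈ Φ e, q.1.1 = q'.1.1 → q = q' := by
    intro e q hq q' hq' h
    have h5 := (Finset.mem_filter.1 hq).2
    have h6 := (Finset.mem_filter.1 hq').2
    refine Subtype.ext (Prod.ext h (Units.ext ?_))
    rw [h5, h6, h]
  have hnm : ∀ e ∈ labs p nv B.calP c τ X, (sysB B E V s0 aτ).nm (Φ e) = nb nv e.support := by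
    intro e he
    unfold Sys.nm nb
    refine Finset.prod_nbij (fun q ↦ q.1.1) (hsupp e) ?_ ?_ ?_
    · intro q hq q' hq' h
      exact hinjb e q hq q' hq' h
    · intro v hv
      obtain ⟨q, hq, hqv⟩ := hunit e he v hv
      exact ⟨q, hq, hqv⟩
    · intro q hq
      rfl
  have hFam : ∀ e ∈ labs p nv B.calP c τ X, (sysB B E V s0 aτ).Fam (Φ e) := by
    intro e he
    refine ⟨fun q hq q' hq' h ↦ hinjb e q hq q' hq' h, ?_⟩
    rw [show (sysB B E V s0 aτ).cl₀ = τ from rfl, ← he.2.2]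
    refine Finset.sum_nbij (fun q ↦ q.1.1) (hsupp e) ?_ ?_ ?_
    · intro q hq q' hq' h
      exact hinjb e q hq q' hq' h
    · intro v hv
      obtain ⟨q, hq, hqv⟩ := hunit e he v hv
      exact ⟨q, hq, hqv⟩
    · intro q hq
      rw [← (Finset.mem_filter.1 hq).2]
      rfl
  have hinj : Set.InjOn Φ (labs p nv B.calP c τ X) := by
    intro e he e' he' h
    ext v
    by_cases h0 : e v = 0
    · by_cases h0' : e' v = 0
      · rw [h0, h0']
      · exfalso
        obtain ⟨q, hq, hqv⟩ := hunit e' he' v (Finsupp.mem_support_iff.2 h0')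
        have h5 := hsupp e q (by rw [h]; exact hq)
        rw [hqv] at h5
        exact (Finsupp.mem_support_iff.1 h5) h0
    · obtain ⟨q, hq, hqv⟩ := hunit e he v (Finsupp.mem_support_iff.2 h0)
      have h5 := (Finset.mem_filter.1 hq).2
      have h6 : q ∈ Φ e' := by rw [← h]; exact hq
      have h7 := (Finset.mem_filter.1 h6).2
      rw [← hqv, ← h5, h7]
  set Lf := hfin.toFinset with hLf
  have hcard : ((Lf.image Φ).card : ℝ) = ((labs p nv B.calP c τ X).ncard : ℝ) := by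
    rw [Finset.card_image_of_injOn (by rw [hLf, Set.Finite.coe_toFinset]; exact hinj),
      Set.ncard_eq_toFinset_card _ hfin]
  have hsum : ((Lf.image Φ).card : ℝ) * Real.exp (-1) ≤
      ∑ b ∈ P'.powerset with (sysB B E V s0 aτ).Fam b, Real.exp (-((sysB B E V s0 aτ).nm b / X)) := by
    rw [← nsmul_eq_mul, ← Finset.sum_const]
    refine le_trans (Finset.sum_le_sum (g := fun b ↦ Real.exp (-((sysB B E V s0 aτ).nm b / X))) ?_)
      (Finset.sum_le_sum_of_subset_of_nonneg ?_ fun b _ _ ↦ (Real.exp_pos _).le)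
    · intro b hb
      obtain ⟨e, he, rfl⟩ := Finset.mem_image.1 hb
      have he' : e ∈ labs p nv B.calP c τ X := (Set.Finite.mem_toFinset hfin).1 he
      refine Real.exp_le_exp.2 (neg_le_neg ?_)
      rw [hnm e he', div_le_one hXpos]
      exact he'.2.1
    · intro b hb
      obtain ⟨e, he, rfl⟩ := Finset.mem_image.1 hb
      have he' : e ∈ labs p nv B.calP c τ X := (Set.Finite.mem_toFinset hfin).1 he
      exact Finset.mem_filter.2 ⟨Finset.mem_powerset.2 (Finset.filter_subset _ _), hFam e he'⟩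
  calc Real.exp (-1) * (c₁ * Real.exp (-(((p : ℝ) - 1) * C'))) * (X * gK κ X)
      = Real.exp (-1) * (c₁ * (Real.exp (-(((p : ℝ) - 1) * C')) * (X * gK κ X))) := by ring
    _ ≤ Real.exp (-1) * (c₁ * mag nv (B.calP.indicator fun _ ↦ ((p : ℝ) - 1)) X) := by
        gcongr
    _ ≤ Real.exp (-1) * ((labs p nv B.calP c τ X).ncard : ℝ) := by gcongr
    _ = ((Lf.image Φ).card : ℝ) * Real.exp (-1) := by rw [hcard]; ring
    _ ≤ _ := hsum

include hp in
/-- The classes of the finite sets of labelled primes fill the whole space. -/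
theorem fam_ex (hs : SitW p K M K₁ M₁ ε δ P) (B : Base p K M K₁ M₁ ε δ P)
    (γ : Fin B.t → ZMod p) : ∃ b : Finset B.LP, Set.InjOn (fun q : B.LP ↦ q.1.1) (b : Set B.LP) ∧
      ∑ q ∈ b, (fun j ↦ ((q.1.2 : (ZMod p)ˣ) : ZMod p) * B.cl j q.1.1) = γ := by
  have := hs.gK
  obtain ⟨x, hx⟩ := Pool.Agent.Helper42.PP1.ch_surj B γ
  obtain ⟨-, -, o2, -, -⟩ := Pool.Agent.Helper22.PP.p_omg p K K₁ ε hs.prim hs.gen
    (Pool.Agent.Helper42.PP1.copK hs)
  obtain ⟨a, ha, hga, -⟩ := o2 x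
  refine ⟨B.lab a, Pool.Agent.Helper42.PP.lab_inj B (Pool.Agent.Helper59.PP.labs_fin B a), ?_⟩
  funext j
  rw [Finset.sum_apply, ← hx j, ← hga _ (B.chO j),
    Pool.Agent.Helper42.PP1.ch_eq Pool.Agent.Helper42.PP1.w_dew hs B a ha j]

end

end Pool.Agent.Helper17.PB
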