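import Pool.Agent.Helper17.PB.SVB
import Pool.Agent.Helper42.PB.BLU
import Pool.Agent.Helper42.PB.BLH
import Pool.Agent.Helper51.PP.Asm
import Pool.Agent.Helper11.PB.Goals
import Pool.Agent.Helper76.PB.GoalsV

/-!
# Project B (MP_fc6b1e_nt): the analytic hypotheses of the systems `sysB` (V_HYP and V_HYP0)
-/

set_option autoImplicit false

namespace Pool.Agent.Helper17.PB

open NumberField Polynomial Module IsDedekindDomain
open Pool.Agent.Helper51.RP Pool.Agent.Helper42.RD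
open Pool.Agent.Helper77.PPS Pool.Agent.Helper77.PPO
open Pool.Agent.Helper42.PP (Spl Base)
open Pool.Agent.Helper42.PP1 (SitW NTV)
open Pool.Agent.Helper42.PB (TauF sysB SitB BaseB V_KUM v_blu v_blh)
open Pool.Agent.Helper17.PP (Sys)
open Pool.Agent.Helper17.PP0 (Hyp₀)
open Pool.Agent.Helper76.PP (psK)
open Pool.Agent.Helper76.PB (NrmInd V_SMN)
open Pool.Agent.Helper11.PP (Slow)
open Pool.Agent.Helper11.PB (V_HYP V_HYP0)
open Pool.Agent.Helper60.PPS (vis_sub)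

open Classical in
/-- The two forms together, for given `tr` and `ψ₁`. -/
theorem coreT (w2 : V_SMN) (w3 : V_KUM) (p : ℕ) [Fact p.Prime] (K M K₁ M₁ J M₂ : Type) [Field K]
    [NumberField K] [Field M] [NumberField M] [Field K₁] [NumberField K₁] [IsTotallyComplex K₁]
    [Field M₁] [NumberField M₁] [IsTotallyComplex M₁] [Field J] [NumberField J] [Field M₂]
    [NumberField M₂] [Algebra K M] [Algebra K K₁] [Algebra K M₁] [Algebra M M₁] [Algebra K₁ M₁]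
    [Algebra K J] [Algebra K M₂] [Algebra M M₂] [Algebra K₁ M₂] [Algebra M₁ M₂] [Algebra J M₂]
    (ε : K₁) (δ : M ≃ₐ[K] M) (P : (ZMod p)[X]) [Fact (Irreducible P)] [Fintype (AdjoinRoot P)]
    (a₀ : M₂ˣ) (hB : SitB p K M K₁ M₁ J M₂ ε δ P a₀) (hnt : NTV p M₁ ε δ P)
    (B : Base p K M K₁ M₁ ε δ P) (D : BaseB B a₀) :
  ∃ (g : ℝ → ℝ) (K₀ : ℝ), Slow g K₀ ∧
  ∀ (n : ℕ) (E : TauF n B) (aτ : K₁ˣ), OmType p K ε (aτ : K₁) → NrmInd E M₂ →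
  ∀ (tr : AdjoinRoot P →ₗ[ZMod p] ZMod p) (ψ₁ : AddChar (ZMod p) ℂ), tr ≠ 0 → ψ₁ ≠ 1 →
  ∃ (K' : ℕ),
    Hyp₀ (sysB B E (Spl M₂ B.S) D.s0 aτ) (psK tr ψ₁) g K' ∧
    (1 < finrank K₁ M₂ → (sysB B E (Spl M₂ B.S) D.s0 aτ).Hyp (psK tr ψ₁) ψ₁ g K') ∧
  ∃ c X₁ : ℝ, 0 < c ∧ ∀ X : ℝ, X₁ ≤ X → ∃ Q : Finset B.LP, c * (X * g X) ≤
    ∑ b ∈ Q.powerset with (sysB B E (Spl M₂ B.S) D.s0 aτ).Fam b,
      Real.exp (-((sysB B E (Spl M₂ B.S) D.s0 aτ).nm b / X)) := by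
  have hs := hB.sit
  have := hs.st1
  have := hs.st2
  have := hs.gM
  have := hs.gK
  have := hs.gMK
  have := hB.t1
  have := hB.t2
  have := hB.t3
  have := hB.gM₂
  have t6 : IsScalarTower K K₁ M₂ := IsScalarTower.of_algebraMap_eq fun x ↦ by
    rw [IsScalarTower.algebraMap_apply K M₁ M₂, IsScalarTower.algebraMap_apply K K₁ M₁,
      ← IsScalarTower.algebraMap_apply K₁ M₁ M₂]
  have hV : Spl M₂ B.S ⊆ B.Vis := vis_sub (K₁ := M₁) B.S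
  have hdv := Pool.Agent.Helper14.RD.finrank_dvd_pred p K K₁ ε hs.prim hs.gen
  have hp1 : 1 < p := (Fact.out : p.Prime).one_lt
  have hd0 : 0 < finrank K K₁ := finrank_pos
  set κ : ℝ := ((p : ℝ) - 1) / finrank K K₁ with hκ
  have hκ1 : 1 ≤ κ := by
    rw [hκ, le_div_iff₀ (by exact_mod_cast hd0), one_mul]
    have h : finrank K K₁ ≤ p - 1 := Nat.le_of_dvd (by omega) hdv
    have h' : ((finrank K K₁ : ℕ) : ℝ) ≤ ((p - 1 : ℕ) : ℝ) := by exact_mod_cast h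
    rwa [Nat.cast_sub hp1.le, Nat.cast_one] at h'
  obtain ⟨g1, g2, g3, -⟩ := h_g κ hκ1
  have h2k : (1 : ℝ) ≤ 2 ^ (κ - 1) := Real.one_le_rpow (by norm_num) (by linarith)
  refine ⟨gK κ, 2 ^ (κ - 1), ⟨g1, fun Y X h ↦ ?_, fun X _ ↦ g3 X⟩, ?_⟩
  · calc gK κ Y ≤ gK κ X := g2 Y X h
      _ = 1 * gK κ X := (one_mul _).symm
      _ ≤ 2 ^ (κ - 1) * gK κ X :=
        mul_le_mul_of_nonneg_right h2k (by linarith [g1 X])
  intro n E aτ haτ hN tr ψ₁ htr hψ₁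
  have hpsK : psK tr ψ₁ ≠ 1 := by
    intro h
    apply one_ne_zero (α := ZMod p)
    apply Pool.Agent.Helper12.PP.kap_psi p ψ₁ hψ₁
    obtain ⟨x, hx⟩ := Pool.Agent.Helper12.PP.kap_surj p P tr htr 1
    have h1 := DFunLike.congr_fun h x
    rw [← hx]
    exact h1
  obtain ⟨Ka, hKa⟩ := sv0B p K M K₁ M₁ M₂ ε δ P B E hdv D.s0 aτ
    ((Fintype.card (AdjoinRoot P) : ℝ) + 4)
  have hSVa := hKa Ka le_rfl
  obtain ⟨X1, hC1, hV1⟩ := v_blu p K M K₁ M₁ ε δ P hs hnt B n E (Spl M₂ B.S) D.s0 aτ hV tr ψ₁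
    htr hψ₁
  obtain ⟨X2, hC2, hV2⟩ := v_blh p K M K₁ M₁ ε δ P hs B n E (Spl M₂ B.S) D.s0 aτ hV ψ₁ hψ₁
  obtain ⟨Kb, hKb1, hKb⟩ := Pool.Agent.Helper51.PP.bl1 p B.LP (HeightOneSpectrum (𝓞 K))
    (AdjoinRoot P) (Fin B.r → AdjoinRoot P) (Fin n → AdjoinRoot P) (Fin B.t → ZMod p)
    (sysB B E (Spl M₂ B.S) D.s0 aτ) (psK tr ψ₁) M₁
    (a1_unb M₁) Ka (Fintype.card (ZMod p)ˣ) hSVa.che (fun b₀ ↦ fib_bound B b₀) (ZMod p)ˣ
    (fun q ↦ q.1.2) _ _ _ _ X1 hC1 hV1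
  obtain ⟨Kc, hKc1, hKc⟩ := Pool.Agent.Helper51.PP.bl2 p B.LP (HeightOneSpectrum (𝓞 K))
    (AdjoinRoot P) (Fin B.r → AdjoinRoot P) (Fin n → AdjoinRoot P) (Fin B.t → ZMod p)
    (sysB B E (Spl M₂ B.S) D.s0 aτ) ψ₁ K₁
    (a1_unb K₁) Ka (Fintype.card (ZMod p)ˣ) hSVa.che (fun b₀ ↦ fib_bound B b₀) (ZMod p)ˣ
    (fun q ↦ q.1.2) _ _ _ _ X2 hC2 hV2
  obtain ⟨Kd, hKd1, hKd⟩ := w2 p K M K₁ M₁ J M₂ ε δ P a₀ hB B D n E hN aτ tr ψ₁ htr hψ₁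
  obtain ⟨Ke, hKe⟩ : ∃ Ke : ℕ, 1 < finrank K₁ M₂ → ∀ K' : ℕ, Ke ≤ K' → ∀ m n : ℕ, 1 ≤ m →
      m ≤ n → (1 / K' : ℝ) * Real.log (n / m) - K' ≤
      ∑ q ∈ (sysB B E (Spl M₂ B.S) D.s0 aτ).below n with
        ¬ (sysB B E (Spl M₂ B.S) D.s0 aτ).spl q ∧ m ≤ (sysB B E (Spl M₂ B.S) D.s0 aτ).bl q,
        (1 : ℝ) / (sysB B E (Spl M₂ B.S) D.s0 aτ).N q := by
    by_cases h : 1 < finrank K₁ M₂
    · obtain ⟨Ke, hKe⟩ := mernB p K M K₁ M₁ M₂ ε δ P B E h D.s0 aτ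
      exact ⟨Ke, fun _ ↦ hKe⟩
    · exact ⟨0, fun h' ↦ absurd h' h⟩
  set K' : ℕ := max (max (max Ka Kb) (max Kc Kd)) Ke with hK'
  have hl : max (max Ka Kb) (max Kc Kd) ≤ K' := le_max_left _ _
  have hKa' : Ka ≤ K' := ((le_max_left _ _).trans (le_max_left _ _)).trans hl
  have hKb' : Kb ≤ K' := ((le_max_right _ _).trans (le_max_left _ _)).trans hl
  have hKc' : Kc ≤ K' := ((le_max_left _ _).trans (le_max_right _ _)).trans hl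
  have hKd' : Kd ≤ K' := ((le_max_right _ _).trans (le_max_right _ _)).trans hl
  have hKe' : Ke ≤ K' := le_max_right _ _
  have hSV := hKa K' hKa'
  have hH₀ : Hyp₀ (sysB B E (Spl M₂ B.S) D.s0 aτ) (psK tr ψ₁) (gK κ) K' :=
      { one_le := hSV.one_le
        ψ_ne := hpsK
        che := hSV.che
        g_one := hSV.g_one
        g_mono := hSV.g_mono
        ht := hSV.ht
        mers := hSV.mers
        sm := by
          have h := hKd K' hKd'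
          unfold Pool.Agent.Helper76.PP.SmF at h
          intro D y χ n hn hD hinj hne hx
          have h' := h D y χ n hn hD hinj hne hx
          convert h' using 2
          ext q
          simp only [Finset.mem_filter]
        kum := w3 p K M K₁ M₁ J M₂ ε δ P a₀ hB hnt B D n E aτ
        bl₁ := by
          intro i j t y c α β Y hj ht hY hα hβ hD
          refine (hKb i j t y c α β Y hj ht hY hα hβ hD).trans ?_
          have hm := mono_bound Kb K' i j (min i j) (Real.exp (-((2 : ℝ) ^ (i + j) / (2 * Y))))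
            ((i : ℝ) + 1) hKb1 hKb' (Real.exp_pos _).le (by linarith [Nat.cast_nonneg (α := ℝ) i])
          rw [Nat.cast_min] at hm
          exact hm }
  refine ⟨K', hH₀, fun hlt ↦ ?_, ?_⟩
  · exact
      { one_le := hH₀.one_le
        ψ_ne := hpsK
        ψ₁_ne := hψ₁
        che := hH₀.che
        g_one := hH₀.g_one
        g_mono := hH₀.g_mono
        ht := hH₀.ht
        mers := hH₀.mers
        mern := hKe hlt K' hKe'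
        sm := hH₀.sm
        kum := hH₀.kum
        bl₁ := hH₀.bl₁
        bl₂ := by
          intro i j s' α β Y hi hj hs' hY hα hβ
          refine (hKc i j s' α β Y hi hj hs' hY hα hβ).trans ?_
          have hi' : (1 : ℝ) ≤ i := by exact_mod_cast hi
          have hm := mono_bound Kc K' i j (min i j) (Real.exp (-((2 : ℝ) ^ (i + j) / (2 * Y))))
            ((i : ℝ) + j) hKc1 hKc' (Real.exp_pos _).le
            (by linarith [Nat.cast_nonneg (α := ℝ) j])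
          rw [Nat.cast_min] at hm
          exact hm }
  · obtain ⟨b, hb1, hb2⟩ := fam_ex p K M K₁ M₁ ε δ P hs B
      (sysB B E (Spl M₂ B.S) D.s0 aτ).cl₀
    exact lowB p K M K₁ M₁ ε δ P B E (Spl M₂ B.S) D.s0 aτ ⟨b, hb1, hb2⟩

open Classical in
/-- The two forms together. -/
theorem core (w2 : V_SMN) (w3 : V_KUM) (p : ℕ) [Fact p.Prime] (K M K₁ M₁ J M₂ : Type) [Field K]
    [NumberField K] [Field M] [NumberField M] [Field K₁] [NumberField K₁] [IsTotallyComplex K₁]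
    [Field M₁] [NumberField M₁] [IsTotallyComplex M₁] [Field J] [NumberField J] [Field M₂]
    [NumberField M₂] [Algebra K M] [Algebra K K₁] [Algebra K M₁] [Algebra M M₁] [Algebra K₁ M₁]
    [Algebra K J] [Algebra K M₂] [Algebra M M₂] [Algebra K₁ M₂] [Algebra M₁ M₂] [Algebra J M₂]
    (ε : K₁) (δ : M ≃ₐ[K] M) (P : (ZMod p)[X]) [Fact (Irreducible P)] [Fintype (AdjoinRoot P)]
    (a₀ : M₂ˣ) (hB : SitB p K M K₁ M₁ J M₂ ε δ P a₀) (hnt : NTV p M₁ ε δ P)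
    (B : Base p K M K₁ M₁ ε δ P) (D : BaseB B a₀) :
  ∃ (g : ℝ → ℝ) (K₀ : ℝ), Slow g K₀ ∧
  ∀ (n : ℕ) (E : TauF n B) (aτ : K₁ˣ), OmType p K ε (aτ : K₁) → NrmInd E M₂ →
  ∃ (ψ : AddChar (AdjoinRoot P) ℂ) (ψ₁ : AddChar (ZMod p) ℂ) (K' : ℕ),
    Hyp₀ (sysB B E (Spl M₂ B.S) D.s0 aτ) ψ g K' ∧
    (1 < finrank K₁ M₂ → (sysB B E (Spl M₂ B.S) D.s0 aτ).Hyp ψ ψ₁ g K') ∧
  ∃ c X₁ : ℝ, 0 < c ∧ ∀ X : ℝ, X₁ ≤ X → ∃ Q : Finset B.LP, c * (X * g X) ≤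
    ∑ b ∈ Q.powerset with (sysB B E (Spl M₂ B.S) D.s0 aτ).Fam b,
      Real.exp (-((sysB B E (Spl M₂ B.S) D.s0 aτ).nm b / X)) := by
  obtain ⟨g, K₀, hg, h⟩ := coreT w2 w3 p K M K₁ M₁ J M₂ ε δ P a₀ hB hnt B D
  obtain ⟨tr, htr⟩ := Pool.Agent.Helper12.PP.kap_tr p P hB.sit.irr
  obtain ⟨ψ₁, hψ₁⟩ := Pool.Agent.Helper12.PP.kap_ex p
  refine ⟨g, K₀, hg, fun n E aτ haτ hN ↦ ?_⟩
  obtain ⟨K', h1, h2, h3⟩ := h n E aτ haτ hN tr ψ₁ htr hψ₁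
  exact ⟨psK tr ψ₁, ψ₁, K', h1, h2, h3⟩

/-- **V_HYP** from helper76's statements `V_SMN` (the field `sm`) and `V_KUM` (the field `kum`). -/
theorem v_hyp (w2 : V_SMN) (w3 : V_KUM) : V_HYP := by
  classical
  intro p _ K M K₁ M₁ J M₂ _ _ _ _ _ _ _ _ _ _ _ _ _ _ _ _ _ _ _ _ _ _ _ _ _ ε δ P _ _ a₀ hB hnt
    hlt B D
  obtain ⟨g, K₀, hg, h⟩ := core w2 w3 p K M K₁ M₁ J M₂ ε δ P a₀ hB hnt B D
  refine ⟨g, K₀, hg, fun n E aτ haτ hN ↦ ?_⟩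
  obtain ⟨ψ, ψ₁, K', -, h1, h2⟩ := h n E aτ haτ hN
  exact ⟨ψ, ψ₁, K', h1 hlt, h2⟩

/-- **V_HYP0** from helper76's statements `V_SMN` (the field `sm`) and `V_KUM` (the field `kum`). -/
theorem v_hyp0 (w2 : V_SMN) (w3 : V_KUM) : V_HYP0 := by
  classical
  intro p _ K M K₁ M₁ J M₂ _ _ _ _ _ _ _ _ _ _ _ _ _ _ _ _ _ _ _ _ _ _ _ _ _ ε δ P _ _ a₀ hB hnt
    B D
  obtain ⟨g, K₀, hg, h⟩ := core w2 w3 p K M K₁ M₁ J M₂ ε δ P a₀ hB hnt B D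
  refine ⟨g, K₀, hg, fun n E aτ haτ hN ↦ ?_⟩
  obtain ⟨ψ, ψ₁, K', h1, -, h2⟩ := h n E aτ haτ hN
  exact ⟨ψ, K', h1, h2⟩

end Pool.Agent.Helper17.PB
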