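import Pool.Agent.Helper17.PB.HYP
import Pool.Agent.Helper11.R.Goals

/-!
# Project B (MP_fc6b1e_nt): `V_HYP0T` (the analytic hypotheses for a given character of `κ`)
-/

set_option autoImplicit false

namespace Pool.Agent.Helper17.PB

open Pool.Agent.Helper76.PB (V_SMN)
open Pool.Agent.Helper42.PB (V_KUM)
open Pool.Agent.Helper11.R (V_HYP0T)

theorem v_hyp0t (w2 : V_SMN) (w3 : V_KUM) : V_HYP0T := by
  classical
  intro p _ K M K₁ M₁ J M₂ _ _ _ _ _ _ _ _ _ _ _ _ _ _ _ _ _ _ _ _ _ _ _ _ _ ε δ P _ _ a₀ hB hnt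
    B D
  obtain ⟨g, K₀, hg, h⟩ := coreT w2 w3 p K M K₁ M₁ J M₂ ε δ P a₀ hB hnt B D
  refine ⟨g, K₀, hg, fun n E aτ haτ hN tr ψ₁ htr hψ₁ ↦ ?_⟩
  obtain ⟨K', h1, -, h3⟩ := h n E aτ haτ hN tr ψ₁ htr hψ₁
  exact ⟨K', h1, h3⟩

end Pool.Agent.Helper17.PB
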